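import Mathlib

set_option autoImplicit false

/-!
The E-sequence with twos at the perfect squares `4, 9, 16, ...` and ones elsewhere is `Ω`-divergent:
it is not the E-sequence of any odd positive integer; neither is it the sequence of the exponents of a
trajectory of integers of any of the `3x + d` maps, `d` odd.

Method: the terms of the trajectory at the times `1, 4, 9, ...` satisfy a linear recurrence, which
expresses the starting value as a value of a partial theta function in the field of `2`-adic numbers. The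
`q`-analogues of the Padé approximations of this function are good enough to prove irrationality,
since `2 ^ 144 > 3 ^ 89` (that is, `log 2 / log 3` is larger than the inverse of the golden ratio).
-/

namespace Pool.Agent.Results.MP_106823_nt.SquareESequence

open Finset

/-- One step `x ↦ (3x + 1) / 2^a`, `2^a` the largest power of `2` dividing `3x + 1`. -/
def S (x : ℕ) : ℕ := (3 * x + 1) / 2 ^ padicValNat 2 (3 * x + 1)

/-- The term number `n ≥ 1` of the E-sequence of `x`: the exponent of `2` in `3 x_{n-1} + 1`, where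
`x_0 = x`, `x_n = S x_{n-1}`. -/
def eSequence (x n : ℕ) : ℕ := padicValNat 2 (3 * S^[n - 1] x + 1)

open Classical in
/-- `q n = 2` if `n` is one of the squares `4, 9, 16, ...`, and `q n = 1` otherwise. -/
noncomputable def q (n : ℕ) : ℕ := if IsSquare n ∧ 4 ≤ n then 2 else 1

/-! ### Rational numbers with denominator a power of three, divisible by powers of two -/

/-- `x` is `2^V` times an element of `ℤ[1/3]` -/
def Dv (V : ℕ) (x : ℚ) : Prop := ∃ (a : ℤ) (c : ℕ), x * 3 ^ c = 2 ^ V * a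

lemma Dv.add {V : ℕ} {x y : ℚ} (hx : Dv V x) (hy : Dv V y) : Dv V (x + y) := by
  obtain ⟨a, c, h1⟩ := hx
  obtain ⟨b, e, h2⟩ := hy
  refine ⟨a * 3 ^ e + b * 3 ^ c, c + e, ?_⟩
  push_cast
  rw [pow_add]
  linear_combination (3 : ℚ) ^ e * h1 + (3 : ℚ) ^ c * h2

lemma Dv.neg {V : ℕ} {x : ℚ} (hx : Dv V x) : Dv V (-x) := by
  obtain ⟨a, c, h1⟩ := hx
  refine ⟨-a, c, ?_⟩
  push_cast
  linear_combination -h1

lemma Dv.sub {V : ℕ} {x y : ℚ} (hx : Dv V x) (hy : Dv V y) : Dv V (x - y) := by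
  rw [sub_eq_add_neg]; exact hx.add hy.neg

lemma Dv.mul {V U : ℕ} {x y : ℚ} (hx : Dv V x) (hy : Dv U y) : Dv (V + U) (x * y) := by
  obtain ⟨a, c, h1⟩ := hx
  obtain ⟨b, e, h2⟩ := hy
  refine ⟨a * b, c + e, ?_⟩
  push_cast
  rw [pow_add, pow_add]
  calc x * y * (3 ^ c * 3 ^ e) = (x * 3 ^ c) * (y * 3 ^ e) := by ring
    _ = _ := by rw [h1, h2]; ring

lemma Dv.mono {V U : ℕ} {x : ℚ} (h : U ≤ V) (hx : Dv V x) : Dv U x := by
  obtain ⟨a, c, h1⟩ := hx
  refine ⟨a * 2 ^ (V - U), c, ?_⟩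
  push_cast
  rw [h1]
  have : (2 : ℚ) ^ V = 2 ^ U * 2 ^ (V - U) := by rw [← pow_add]; congr 1; omega
  rw [this]; ring

lemma Dv_int (a : ℤ) : Dv 0 (a : ℚ) := ⟨a, 0, by simp⟩

lemma Dv_two_third (V : ℕ) : Dv V ((2 / 3 : ℚ) ^ V) := by
  refine ⟨1, V, ?_⟩
  rw [← mul_pow]; norm_num

lemma Dv_two (V : ℕ) : Dv V ((2 : ℚ) ^ V) := ⟨1, 0, by simp⟩

lemma Dv_zero (V : ℕ) : Dv V (0 : ℚ) := ⟨0, 0, by simp⟩

lemma Dv_sum {V : ℕ} {ι : Type*} (s : Finset ι) (f : ι → ℚ) (h : ∀ i ∈ s, Dv V (f i)) :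
    Dv V (∑ i ∈ s, f i) := by
  classical
  induction s using Finset.induction_on with
  | empty => simpa using Dv_zero V
  | insert a s ha ih =>
    rw [sum_insert ha]
    exact (h a (mem_insert_self _ _)).add (ih fun i hi => h i (mem_insert_of_mem hi))

/-! ### The approximations -/

/-- `τ k = 2^k (2/3)^(k^2+2k)` -/
def τ (k : ℕ) : ℚ := 2 ^ k * (2 / 3) ^ (k ^ 2 + 2 * k)

lemma τ_succ (k : ℕ) : τ (k + 1) = τ k * (2 * (2 / 3) ^ (2 * k + 3)) := by
  unfold τ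
  have : (k + 1) ^ 2 + 2 * (k + 1) = (k ^ 2 + 2 * k) + (2 * k + 3) := by ring
  rw [this, pow_add, pow_succ]; ring

lemma τ_pos (k : ℕ) : 0 < τ k := by unfold τ; positivity

/-- the operators applied to a sequence `U` -/
def P (U : ℕ → ℚ) : ℕ → ℕ → ℕ → ℚ
  | 0, _, K => U K
  | i + 1, n, K => P U i n K - 2 * (2 / 3) ^ (2 * n + 2 * i + 1) * P U i (n - 1) (K - 1)

/-- the coefficients of the remainder -/
noncomputable def G (i n N : ℕ) : ℚ := τ N * ∏ j ∈ range i, (1 - (2 / 3 : ℚ) ^ (2 * ((n : ℤ) + j - N)))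

lemma G_succ (i n N : ℕ) (hn : 1 ≤ n) (hN : 1 ≤ N) :
    G (i + 1) n N = G i n N - 2 * (2 / 3) ^ (2 * n + 2 * i + 1) * G i (n - 1) (N - 1) := by
  unfold G
  obtain ⟨n, rfl⟩ := Nat.exists_eq_add_of_le' hn
  obtain ⟨N, rfl⟩ := Nat.exists_eq_add_of_le' hN
  rw [Nat.add_sub_cancel, Nat.add_sub_cancel, prod_range_succ]
  have h1 : ∀ j ∈ range i, (1 - (2 / 3 : ℚ) ^ (2 * (((n + 1 : ℕ) : ℤ) + j - (N + 1 : ℕ)))) =
      (1 - (2 / 3 : ℚ) ^ (2 * ((n : ℤ) + j - N))) := by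
    intro j _
    congr 2
    push_cast
    ring
  rw [prod_congr rfl h1, τ_succ]
  have h2 : (2 * (2 / 3 : ℚ) ^ (2 * N + 3)) * (2 / 3 : ℚ) ^ (2 * (((n + 1 : ℕ) : ℤ) + i - (N + 1 : ℕ))) =
      2 * (2 / 3) ^ (2 * (n + 1) + 2 * i + 1) := by
    rw [mul_assoc]
    congr 1
    rw [← zpow_natCast, ← zpow_natCast, ← zpow_add₀ (by norm_num)]
    congr 1
    push_cast
    ring
  have h3 : τ N * (2 * (2 / 3 : ℚ) ^ (2 * N + 3)) *
      ((∏ j ∈ range i, (1 - (2 / 3 : ℚ) ^ (2 * ((n : ℤ) + j - N)))) *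
        (1 - (2 / 3 : ℚ) ^ (2 * (((n + 1 : ℕ) : ℤ) + i - (N + 1 : ℕ))))) =
      τ N * (2 * (2 / 3 : ℚ) ^ (2 * N + 3)) * (∏ j ∈ range i, (1 - (2 / 3 : ℚ) ^ (2 * ((n : ℤ) + j - N)))) -
      ((2 * (2 / 3 : ℚ) ^ (2 * N + 3)) * (2 / 3 : ℚ) ^ (2 * (((n + 1 : ℕ) : ℤ) + i - (N + 1 : ℕ)))) *
        (τ N * (∏ j ∈ range i, (1 - (2 / 3 : ℚ) ^ (2 * ((n : ℤ) + j - N))))) := by ring
  rw [h3, h2]

/-- the increments in `K` -/
lemma P_step {U : ℕ → ℚ} {d : ℚ} (hU : ∀ K, U (K + 1) - U K = d * τ K) (i : ℕ) :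
    ∀ n K : ℕ, i ≤ n → i ≤ K → P U i n (K + 1) - P U i n K = d * G i n K := by
  induction i with
  | zero => intro n K _ _; simp [P, G, hU]
  | succ i ih =>
    intro n K hn hK
    have h1 := ih n K (by omega) (by omega)
    have h2 := ih (n - 1) (K - 1) (by omega) (by omega)
    rw [G_succ i n K (by omega) (by omega)]
    unfold P
    rw [show K - 1 + 1 = K from by omega] at h2
    rw [show K + 1 - 1 = K from by omega]
    linear_combination h1 - 2 * (2 / 3) ^ (2 * n + 2 * i + 1) * h2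

/-- the expansion -/
lemma P_eq {U : ℕ → ℚ} {d : ℚ} (hU : ∀ K, U (K + 1) - U K = d * τ K) {i n : ℕ} (hn : i ≤ n) (M : ℕ) :
    P U i n (n + M) = P U i n n + d * ∑ N ∈ range M, G i n (n + N) := by
  induction M with
  | zero => simp
  | succ M ih =>
    rw [sum_range_succ, mul_add]
    have h1 := P_step hU i n (n + M) hn (by omega)
    rw [show n + (M + 1) = n + M + 1 from rfl]
    linear_combination h1 + ih

/-- vanishing coefficients -/
lemma G_zero {i n N : ℕ} (h1 : n ≤ N) (h2 : N < n + i) : G i n N = 0 := by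
  unfold G
  rw [prod_eq_zero (i := N - n) (mem_range.2 (by omega)), mul_zero]
  rw [sub_eq_zero, show (2 * ((n : ℤ) + ((N - n : ℕ) : ℤ) - N)) = 0 by push_cast [h1]; ring, zpow_zero]

/-- one factor -/
lemma factor (l : ℕ) : (1 - (2 / 3 : ℚ) ^ (-(2 * (l : ℤ)))) * 4 ^ l = 4 ^ l - 9 ^ l := by
  rw [zpow_neg, show (2 * (l : ℤ)) = ((2 * l : ℕ) : ℤ) by push_cast; ring, zpow_natCast, pow_mul]
  norm_num
  rw [div_pow, sub_mul, inv_div, div_mul_cancel₀ _ (by positivity)]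
  ring

/-- the product of the factors: `G` at `N = n + i + t`, `t ≥ 0` -/
lemma G_form (i n t : ℕ) : ∃ o : ℤ, Odd o ∧ ∃ c : ℕ,
    G i n (n + i + t) * 3 ^ c = 2 ^ (n ^ 2 + 2 * n * i + 3 * n + 2 * i + t * (2 * n + 3 + t)) * o := by
  -- the product
  have key : ∀ i' ≤ i, ∃ o : ℤ, Odd o ∧
      (∏ j ∈ range i', (1 - (2 / 3 : ℚ) ^ (2 * ((n : ℤ) + j - (n + i + t : ℕ))))) *
        2 ^ (i' * (2 * (i + t) + 1 - i')) = o := by
    intro i' hi'
    induction i' with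
    | zero => exact ⟨1, odd_one, by simp⟩
    | succ k ih =>
      obtain ⟨o, ho, h⟩ := ih (by omega)
      -- `l = i + t - k`
      obtain ⟨l, hl⟩ : ∃ l, i + t = k + l := ⟨i + t - k, by omega⟩
      have hl1 : 1 ≤ l := by omega
      refine ⟨o * (4 ^ l - 9 ^ l), ?_, ?_⟩
      · refine ho.mul ?_
        have h4 : Even ((4 : ℤ) ^ l) := Even.pow_of_ne_zero (by decide) (by omega)
        have h9 : Odd ((9 : ℤ) ^ l) := Odd.pow (by decide)
        exact h4.sub_odd h9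
      · rw [prod_range_succ]
        have e1 : (2 * ((n : ℤ) + k - (n + i + t : ℕ))) = -(2 * (l : ℤ)) := by
          push_cast; have : (i : ℤ) + t = k + l := by exact_mod_cast hl
          linarith
        rw [e1]
        have e2 : (k + 1) * (2 * (i + t) + 1 - (k + 1)) = k * (2 * (i + t) + 1 - k) + 2 * l := by
          rw [hl]
          have a1 : 2 * (k + l) + 1 - (k + 1) = k + 2 * l := by omega
          have a2 : 2 * (k + l) + 1 - k = k + 2 * l + 1 := by omega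
          rw [a1, a2]; ring
        rw [e2, pow_add, pow_mul 2 2 l]
        have h5 := factor l
        have h6 : ((o * (4 ^ l - 9 ^ l) : ℤ) : ℚ) = (o : ℚ) * (4 ^ l - 9 ^ l) := by push_cast; ring
        rw [h6, ← h, ← h5, show (2 : ℚ) ^ 2 = 4 by norm_num]
        ring
  obtain ⟨o, ho, h⟩ := key i le_rfl
  refine ⟨o, ho, (n + i + t) ^ 2 + 2 * (n + i + t), ?_⟩
  unfold G τ
  have e3 : 2 * (i + t) + 1 - i = i + 2 * t + 1 := by omega
  rw [e3] at h
  have e4 : (n + i + t) + ((n + i + t) ^ 2 + 2 * (n + i + t)) =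
      (n ^ 2 + 2 * n * i + 3 * n + 2 * i + t * (2 * n + 3 + t)) + i * (i + 2 * t + 1) := by ring
  have e5 : (2 : ℚ) ^ (n + i + t) * 2 ^ ((n + i + t) ^ 2 + 2 * (n + i + t)) =
      2 ^ (n ^ 2 + 2 * n * i + 3 * n + 2 * i + t * (2 * n + 3 + t)) * 2 ^ (i * (i + 2 * t + 1)) := by
    rw [← pow_add, ← pow_add, e4]
  rw [← h, div_pow]
  have h3 : (3 : ℚ) ^ ((n + i + t) ^ 2 + 2 * (n + i + t)) ≠ 0 := by positivity
  field_simp
  linear_combination (∏ j ∈ range i, (1 - (2 / 3 : ℚ) ^ (2 * ((n : ℤ) + j - (n + i + t : ℕ))))) * e5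

/-- divisibility of the values at large `K` -/
lemma P_Dv {U : ℕ → ℚ} {W : ℕ → ℤ} (hW : ∀ K, U K = τ K * W K) (i : ℕ) :
    ∀ n K : ℕ, i ≤ n → i ≤ K → Dv ((K - i) ^ 2) (P U i n K) := by
  induction i with
  | zero =>
    intro n K _ _
    unfold P
    rw [hW]
    have h1 : Dv (K + (K ^ 2 + 2 * K)) (τ K) := (Dv_two K).mul (Dv_two_third _)
    have h2 := h1.mul (Dv_int (W K))
    refine h2.mono ?_
    rw [Nat.sub_zero]
    omega
  | succ i ih =>
    intro n K hn hK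
    unfold P
    have h1 := ih n K (by omega) (by omega)
    have h2 := ih (n - 1) (K - 1) (by omega) (by omega)
    have h3 : Dv 0 (2 * (2 / 3 : ℚ) ^ (2 * n + 2 * i + 1)) := by
      have := (Dv_int 2).mul (Dv_two_third (2 * n + 2 * i + 1))
      exact this.mono (Nat.zero_le _)
    have h4 := h3.mul h2
    refine Dv.sub (h1.mono ?_) (h4.mono ?_)
    · exact Nat.pow_le_pow_left (by omega) 2
    · rw [Nat.zero_add, Nat.sub_sub, Nat.add_comm 1 i]

/-- the integrality of the approximation -/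
lemma P_int {U : ℕ → ℚ} {W : ℕ → ℤ} (hW : ∀ K, U K = τ K * W K) (i : ℕ) :
    ∀ n : ℕ, i ≤ n → ∃ J : ℤ, P U i n n * 3 ^ (n ^ 2 + 2 * n + i * i) = J * 2 ^ (n ^ 2 + 3 * n) := by
  induction i with
  | zero =>
    intro n _
    refine ⟨W n, ?_⟩
    unfold P
    rw [hW]
    unfold τ
    rw [div_pow, show n ^ 2 + 3 * n = n + (n ^ 2 + 2 * n) by ring, pow_add 2 n, mul_zero, add_zero]
    field_simp
  | succ i ih =>
    intro n hn
    obtain ⟨J1, h1⟩ := ih n (by omega)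
    obtain ⟨J2, h2⟩ := ih (n - 1) (by omega)
    obtain ⟨n, rfl⟩ := Nat.exists_eq_add_of_le' (show 1 ≤ n by omega)
    rw [Nat.add_sub_cancel] at h2
    refine ⟨J1 * 3 ^ (2 * i + 1) - J2 * 2 ^ (2 * i) * 3, ?_⟩
    unfold P
    rw [Nat.add_sub_cancel]
    have e1 : (n + 1) ^ 2 + 2 * (n + 1) + (i + 1) * (i + 1) =
      ((n + 1) ^ 2 + 2 * (n + 1) + i * i) + (2 * i + 1) := by ring
    have e2 : (n + 1) ^ 2 + 2 * (n + 1) + (i + 1) * (i + 1) =
      (n ^ 2 + 2 * n + i * i) + (2 * (n + 1) + 2 * i + 1) + 1 := by ring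
    have e3 : (n + 1) ^ 2 + 3 * (n + 1) = (n ^ 2 + 3 * n) + (2 * (n + 1) + 2 * i + 1) + 1 - 2 * i := by
      have : (n + 1) ^ 2 + 3 * (n + 1) + 2 * i = (n ^ 2 + 3 * n) + (2 * (n + 1) + 2 * i + 1) + 1 := by ring
      omega
    have e4 : (2 : ℚ) ^ (2 * i) * 2 ^ ((n + 1) ^ 2 + 3 * (n + 1)) =
      2 ^ (n ^ 2 + 3 * n) * 2 ^ (2 * (n + 1) + 2 * i + 1) * 2 := by
      rw [← pow_add, ← pow_add, ← pow_succ]
      congr 1
      ring
    rw [sub_mul]
    rw [e1] at *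
    have g1 : P U i (n + 1) (n + 1) * 3 ^ ((n + 1) ^ 2 + 2 * (n + 1) + i * i + (2 * i + 1)) =
      J1 * 3 ^ (2 * i + 1) * 2 ^ ((n + 1) ^ 2 + 3 * (n + 1)) := by
      rw [pow_add]
      linear_combination (3 : ℚ) ^ (2 * i + 1) * h1
    have g2 : 2 * (2 / 3 : ℚ) ^ (2 * (n + 1) + 2 * i + 1) * P U i n n *
        3 ^ ((n + 1) ^ 2 + 2 * (n + 1) + i * i + (2 * i + 1)) =
        J2 * 2 ^ (2 * i) * 3 * 2 ^ ((n + 1) ^ 2 + 3 * (n + 1)) := by
      rw [e2, pow_succ (3 : ℚ) (n ^ 2 + 2 * n + i * i + (2 * (n + 1) + 2 * i + 1)),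
        pow_add (3 : ℚ) (n ^ 2 + 2 * n + i * i)]
      have hE : (2 / 3 : ℚ) ^ (2 * (n + 1) + 2 * i + 1) * 3 ^ (2 * (n + 1) + 2 * i + 1) =
          2 ^ (2 * (n + 1) + 2 * i + 1) := by rw [← mul_pow]; norm_num
      generalize (2 / 3 : ℚ) ^ (2 * (n + 1) + 2 * i + 1) = x1 at hE ⊢
      generalize (3 : ℚ) ^ (2 * (n + 1) + 2 * i + 1) = x2 at hE ⊢
      generalize (2 : ℚ) ^ (2 * (n + 1) + 2 * i + 1) = x3 at hE e4 ⊢
      generalize (3 : ℚ) ^ (n ^ 2 + 2 * n + i * i) = x4 at h2 ⊢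
      generalize (2 : ℚ) ^ (n ^ 2 + 3 * n) = x5 at h2 e4 ⊢
      generalize (2 : ℚ) ^ ((n + 1) ^ 2 + 3 * (n + 1)) = x6 at e4 ⊢
      generalize (2 : ℚ) ^ (2 * i) = x7 at e4 ⊢
      generalize P U i n n = x8 at h2 ⊢
      linear_combination (2 * x8 * x4 * 3) * hE + (2 * x3 * 3) * h2 - (3 * (J2 : ℚ)) * e4
    rw [g1, g2]
    push_cast
    ring

/-- the size of the approximation -/
lemma P_size {U : ℕ → ℚ} {C : ℚ} (hC : ∀ K, |U K| ≤ C) (i : ℕ) :
    ∀ n K : ℕ, i ≤ n → |P U i n K| ≤ 2 ^ i * C := by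
  induction i with
  | zero => intro n K _; simpa [P] using hC K
  | succ i ih =>
    intro n K hn
    unfold P
    have h1 := ih n K (by omega)
    have h2 := ih (n - 1) (K - 1) (by omega)
    have h3 : 2 * (2 / 3 : ℚ) ^ (2 * n + 2 * i + 1) ≤ 1 := by
      have : (2 / 3 : ℚ) ^ (2 * n + 2 * i + 1) ≤ (2 / 3 : ℚ) ^ 3 :=
        pow_le_pow_of_le_one (by norm_num) (by norm_num) (by omega)
      have h4 : (2 / 3 : ℚ) ^ 3 = 8 / 27 := by norm_num
      rw [h4] at this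
      linarith
    have h5 : (0 : ℚ) ≤ 2 * (2 / 3 : ℚ) ^ (2 * n + 2 * i + 1) := by positivity
    calc |P U i n K - 2 * (2 / 3) ^ (2 * n + 2 * i + 1) * P U i (n - 1) (K - 1)|
        ≤ |P U i n K| + |2 * (2 / 3) ^ (2 * n + 2 * i + 1) * P U i (n - 1) (K - 1)| := abs_sub _ _
      _ ≤ 2 ^ i * C + 1 * (2 ^ i * C) := by
          rw [abs_mul, abs_of_nonneg h5]
          exact add_le_add h1 (mul_le_mul h3 h2 (abs_nonneg _) (by norm_num))
      _ = 2 ^ (i + 1) * C := by ring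

/-- an element of `2^V ℤ[1/3]` which is an integer is divisible by `2^V` -/
lemma Dv_dvd {V : ℕ} {J : ℤ} (h : Dv V (J : ℚ)) : (2 : ℤ) ^ V ∣ J := by
  obtain ⟨a, c, h1⟩ := h
  have h2 : J * 3 ^ c = 2 ^ V * a := by exact_mod_cast h1
  have h3 : IsCoprime ((2 : ℤ) ^ V) (3 ^ c) := IsCoprime.pow (by norm_num)
  exact h3.dvd_of_dvd_mul_right ⟨a, h2⟩

/-- **The core**: there is no integer sequence with this recurrence. -/
theorem core (d : ℤ) (hd : Odd d) (W : ℕ → ℤ)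
    (hW : ∀ K : ℕ, 2 ^ (2 * K + 4) * W (K + 1) = 3 ^ (2 * K + 3) * (W K + d)) : False := by
  -- the sequence `U`
  set U : ℕ → ℚ := fun K => τ K * W K with hUdef
  have hU : ∀ K, U (K + 1) - U K = d * τ K := by
    intro K
    have h1 : (2 : ℚ) ^ (2 * K + 4) * W (K + 1) = 3 ^ (2 * K + 3) * (W K + d) := by exact_mod_cast hW K
    simp only [hUdef]
    rw [τ_succ, div_pow]
    have h3 : (3 : ℚ) ^ (2 * K + 3) ≠ 0 := by positivity
    field_simp
    rw [show (2 : ℚ) ^ (2 * K + 4) = 2 * 2 ^ (2 * K + 3) by rw [← pow_succ']] at h1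
    linear_combination τ K * h1
  have hUW : ∀ K, U K = τ K * W K := fun K => rfl
  -- boundedness
  have hτ : ∀ K, τ (K + 1) ≤ τ K * (16 / 27) := by
    intro K
    rw [τ_succ]
    refine mul_le_mul_of_nonneg_left ?_ (τ_pos K).le
    have : (2 / 3 : ℚ) ^ (2 * K + 3) ≤ (2 / 3 : ℚ) ^ 3 :=
      pow_le_pow_of_le_one (by norm_num) (by norm_num) (by omega)
    have h4 : (2 / 3 : ℚ) ^ 3 = 8 / 27 := by norm_num
    rw [h4] at this
    linarith
  have hbd : ∀ K, |U K| + 3 * |(d : ℚ)| * τ K ≤ |U 0| + 3 * |(d : ℚ)| * τ 0 := by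
    intro K
    induction K with
    | zero => exact le_rfl
    | succ K ih =>
      have h1 : |U (K + 1)| ≤ |U K| + |(d : ℚ)| * τ K := by
        have : U (K + 1) = U K + d * τ K := by linarith [hU K]
        rw [this]
        refine (abs_add_le _ _).trans ?_
        rw [abs_mul (d : ℚ) (τ K), abs_of_pos (τ_pos K)]
      have h2 := hτ K
      have h3 : (0 : ℚ) ≤ |(d : ℚ)| := abs_nonneg _
      have h4 := τ_pos K
      have h5 : 3 * |(d : ℚ)| * τ (K + 1) ≤ 3 * |(d : ℚ)| * (τ K * (16 / 27)) :=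
        mul_le_mul_of_nonneg_left h2 (by positivity)
      have h6 : (0 : ℚ) ≤ |(d : ℚ)| * τ K := by positivity
      nlinarith
  set C : ℚ := |U 0| + 3 * |(d : ℚ)| * τ 0 with hC
  have hbound : ∀ K, |U K| ≤ C := by
    intro K
    have h3 : (0 : ℚ) ≤ 3 * |(d : ℚ)| * τ K := by
      have := τ_pos K
      positivity
    linarith [hbd K]
  -- a large integer `L`
  obtain ⟨L, hLC⟩ : ∃ L : ℕ, C < 2 ^ L := pow_unbounded_of_one_lt C (by norm_num)
  have hC0 : 0 ≤ C := (abs_nonneg _).trans (hbound 0)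
  -- the approximation `n = 8 L, m = 5 L`
  set n := 8 * L with hn
  set m := 5 * L with hm
  have hmn : m ≤ n := by omega
  set V := n ^ 2 + 2 * n * m + 3 * n + 2 * m with hV
  obtain ⟨J, hJ⟩ := P_int hUW m n hmn
  -- the expansion for large `K`
  set M := m + V + 2 with hM
  have hexp := P_eq hU hmn M
  obtain ⟨o, ho, c, hoc⟩ := G_form m n 0
  rw [Nat.add_zero, Nat.zero_mul, Nat.add_zero, ← hV] at hoc
  have hlead : Dv V (G m n (n + m)) := ⟨o, c, hoc⟩
  -- the sum of the coefficients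
  have hsum : ∃ rest : ℚ, Dv (V + 1) rest ∧ ∑ N ∈ range M, G m n (n + N) = G m n (n + m) + rest := by
    refine ⟨∑ N ∈ (range M).erase m, G m n (n + N), ?_, ?_⟩
    · refine Dv_sum _ _ fun N hN => ?_
      rw [mem_erase, mem_range] at hN
      rcases lt_or_gt_of_ne hN.1 with h | h
      · rw [G_zero (by omega) (by omega)]; exact Dv_zero _
      · obtain ⟨t, rfl⟩ := Nat.exists_eq_add_of_lt h
        obtain ⟨o', _, c', h'⟩ := G_form m n (t + 1)
        rw [show n + (m + t + 1) = n + m + (t + 1) by ring]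
        refine Dv.mono ?_ ⟨o', c', h'⟩
        rw [← hV]
        have : 1 ≤ (t + 1) * (2 * n + 3 + (t + 1)) := Nat.one_le_iff_ne_zero.2 (by positivity)
        omega
    · exact (add_sum_erase _ _ (mem_range.2 (by omega))).symm
  obtain ⟨rest, hrest, hsum⟩ := hsum
  rw [hsum] at hexp
  have hbig : Dv (V + 1) (P U m n (n + M)) := by
    refine (P_Dv hUW m n (n + M) hmn (by omega)).mono ?_
    have h1 : V + 2 ≤ n + M - m := by omega
    calc V + 1 ≤ (V + 2) ^ 2 := by nlinarith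
      _ ≤ (n + M - m) ^ 2 := Nat.pow_le_pow_left h1 2
  have hdint : Dv 0 (d : ℚ) := Dv_int d
  -- the approximation is divisible by `2^V`
  have hR : P U m n n = P U m n (n + M) - d * rest - d * G m n (n + m) := by linarith
  have hdrest : Dv (V + 1) ((d : ℚ) * rest) := by
    have := hdint.mul hrest; rwa [Nat.zero_add] at this
  have hdlead : Dv V ((d : ℚ) * G m n (n + m)) := by
    have := hdint.mul hlead; rwa [Nat.zero_add] at this
  have hRV : Dv V (P U m n n) := by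
    rw [hR]
    exact ((hbig.mono (by omega)).sub (hdrest.mono (by omega))).sub hdlead
  -- it is not zero
  have hR0 : P U m n n ≠ 0 := by
    intro h0
    have h1 : Dv (V + 1) ((d : ℚ) * G m n (n + m)) := by
      have : (d : ℚ) * G m n (n + m) = P U m n (n + M) - d * rest := by linarith
      rw [this]
      exact hbig.sub hdrest
    obtain ⟨a, e, h2⟩ := h1
    have h3 : (d : ℚ) * o * 3 ^ e = 2 * a * 3 ^ c := by
      have h4 : (2 : ℚ) ^ V ≠ 0 := by positivity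
      apply mul_left_cancel₀ h4
      have h5 : (d : ℚ) * (G m n (n + m) * 3 ^ c) * 3 ^ e = 2 ^ (V + 1) * a * 3 ^ c := by
        rw [← h2]; ring
      rw [hoc] at h5
      rw [pow_succ] at h5
      linear_combination h5
    have h6 : d * o * 3 ^ e = 2 * a * 3 ^ c := by exact_mod_cast h3
    have h7 : Odd (d * o * 3 ^ e) := (hd.mul ho).mul (Odd.pow (by decide))
    rw [h6, mul_assoc] at h7
    exact (Int.not_even_iff_odd.2 h7) (even_two_mul _)
  -- the integer `J`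
  have hJ0 : J ≠ 0 := by
    rintro rfl
    rw [Int.cast_zero, zero_mul, mul_eq_zero] at hJ
    rcases hJ with h | h
    · exact hR0 h
    · have : (3 : ℚ) ^ (n ^ 2 + 2 * n + m * m) ≠ 0 := by positivity
      exact this h
  have hJd : (2 : ℤ) ^ V ∣ J * 2 ^ (n ^ 2 + 3 * n) := by
    apply Dv_dvd
    push_cast
    rw [← hJ]
    have := hRV.mul (Dv_int (3 ^ (n ^ 2 + 2 * n + m * m)))
    push_cast at this
    exact this
  have hJabs : (2 : ℤ) ^ V ≤ |J * 2 ^ (n ^ 2 + 3 * n)| :=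
    Int.le_of_dvd (abs_pos.2 (mul_ne_zero hJ0 (by positivity))) ((dvd_abs _ _).2 hJd)
  have hsize : |((J * 2 ^ (n ^ 2 + 3 * n) : ℤ) : ℚ)| ≤ 2 ^ m * C * 3 ^ (n ^ 2 + 2 * n + m * m) := by
    push_cast
    rw [← hJ, abs_mul, abs_of_pos (show (0 : ℚ) < 3 ^ (n ^ 2 + 2 * n + m * m) by positivity)]
    exact mul_le_mul_of_nonneg_right (P_size hbound m n n hmn) (by positivity)
  have hfin : (2 : ℚ) ^ V ≤ 2 ^ m * C * 3 ^ (n ^ 2 + 2 * n + m * m) := by
    have h1 : ((2 : ℤ) ^ V : ℚ) ≤ |((J * 2 ^ (n ^ 2 + 3 * n) : ℤ) : ℚ)| := by exact_mod_cast hJabs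
    push_cast at h1
    push_cast at hsize
    exact h1.trans hsize
  -- the contradiction
  have h1 : (2 : ℚ) ^ V < 2 ^ m * 2 ^ L * 3 ^ (n ^ 2 + 2 * n + m * m) := by
    refine hfin.trans_lt ?_
    have h2 : (0 : ℚ) < 3 ^ (n ^ 2 + 2 * n + m * m) := by positivity
    have h3 : (0 : ℚ) < 2 ^ m := by positivity
    exact mul_lt_mul_of_pos_right (mul_lt_mul_of_pos_left hLC h3) h2
  have h2 : 2 ^ V < 2 ^ m * 2 ^ L * 3 ^ (n ^ 2 + 2 * n + m * m) := by exact_mod_cast h1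
  have e1 : V = 144 * (L * L) + (28 * L + m + L) := by rw [hV, hn, hm]; ring
  have e2 : n ^ 2 + 2 * n + m * m = 89 * (L * L) + 16 * L := by rw [hn, hm]; ring
  rw [e1, e2, pow_add, pow_add 3, pow_mul, pow_mul 3, pow_mul 3 16] at h2
  have h3 : (3 ^ 89) ^ (L * L) ≤ (2 ^ 144) ^ (L * L) := Nat.pow_le_pow_left (by norm_num) _
  have h4 : (3 ^ 16) ^ L * (2 ^ m * 2 ^ L) ≤ 2 ^ (28 * L + m + L) := by
    rw [pow_add, pow_add, pow_mul 2 28, mul_assoc]
    exact Nat.mul_le_mul_right _ (Nat.pow_le_pow_left (by norm_num) _)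
  have h5 : 2 ^ m * 2 ^ L * ((3 ^ 89) ^ (L * L) * (3 ^ 16) ^ L) ≤ (2 ^ 144) ^ (L * L) * 2 ^ (28 * L + m + L) := by
    calc 2 ^ m * 2 ^ L * ((3 ^ 89) ^ (L * L) * (3 ^ 16) ^ L)
        = (3 ^ 89) ^ (L * L) * ((3 ^ 16) ^ L * (2 ^ m * 2 ^ L)) := by ring
      _ ≤ _ := Nat.mul_le_mul h3 h4
  exact absurd h2 (not_lt.2 h5)

/-! ### From the trajectories to the recurrence -/

lemma q_square (K : ℕ) : q ((K + 2) ^ 2) = 2 := by
  unfold q
  rw [if_pos]
  exact ⟨⟨K + 2, by ring⟩, Nat.pow_le_pow_left (show 2 ≤ K + 2 by omega) 2⟩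

lemma q_between (K i : ℕ) (h1 : 1 ≤ i) (h2 : i ≤ 2 * K + 2) : q ((K + 1) ^ 2 + i) = 1 := by
  unfold q
  rw [if_neg]
  rintro ⟨⟨r, hr⟩, _⟩
  have h3 : K + 1 < r := by
    by_contra hlt
    have : r * r ≤ (K + 1) * (K + 1) := Nat.mul_le_mul (by omega) (by omega)
    nlinarith
  have h4 : (K + 2) * (K + 2) ≤ r * r := Nat.mul_le_mul (by omega) (by omega)
  nlinarith

/-- no trajectory of integers of the `3x + d` map, `d` odd, has this sequence of exponents -/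
theorem no_trajectory (d : ℤ) (hd : Odd d) :
    ¬ ∃ y : ℕ → ℤ, ∀ n : ℕ, 1 ≤ n → 3 * y (n - 1) + d = 2 ^ q n * y n := by
  rintro ⟨y, hy⟩
  apply core d hd (fun K => d + 2 * y ((K + 1) ^ 2))
  intro K
  have h1 : ∀ i ≤ 2 * K + 2, 2 ^ i * (y ((K + 1) ^ 2 + i) + d) = 3 ^ i * (y ((K + 1) ^ 2) + d) := by
    intro i hi
    induction i with
    | zero => simp
    | succ i ih =>
      have h2 := hy ((K + 1) ^ 2 + (i + 1)) (by omega)
      rw [q_between K (i + 1) (by omega) hi, show (K + 1) ^ 2 + (i + 1) - 1 = (K + 1) ^ 2 + i by omega,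
        pow_one] at h2
      have h3 := ih (by omega)
      rw [pow_succ (2 : ℤ) i, pow_succ (3 : ℤ) i]
      generalize y ((K + 1) ^ 2 + (i + 1)) = y1 at h2 ⊢
      generalize y ((K + 1) ^ 2 + i) = y2 at h2 h3
      generalize y ((K + 1) ^ 2) = y3 at h3 ⊢
      linear_combination 3 * h3 - 2 ^ i * h2
  have h4 := h1 (2 * K + 2) le_rfl
  have h5 := hy ((K + 2) ^ 2) (Nat.one_le_pow _ _ (by omega))
  rw [q_square, show (K + 2) ^ 2 - 1 = (K + 1) ^ 2 + (2 * K + 2) by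
    have : (K + 2) ^ 2 = (K + 1) ^ 2 + (2 * K + 2) + 1 := by ring
    omega] at h5
  show 2 ^ (2 * K + 4) * (d + 2 * y ((K + 1 + 1) ^ 2)) = 3 ^ (2 * K + 3) * (d + 2 * y ((K + 1) ^ 2) + d)
  rw [show K + 1 + 1 = K + 2 from rfl, show 2 * K + 4 = (2 * K + 2) + 2 by ring,
    show 2 * K + 3 = (2 * K + 2) + 1 by ring, pow_add, pow_add]
  generalize y ((K + 1) ^ 2 + (2 * K + 2)) = y1 at h4 h5
  generalize y ((K + 1) ^ 2) = y2 at h4 ⊢
  generalize y ((K + 2) ^ 2) = y3 at h5 ⊢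
  linear_combination 6 * h4 - 2 * 2 ^ (2 * K + 2) * h5

/-- **Q1.** The E-sequence `q` with `q n = 2` for `n ∈ {2^2, 3^2, ...}` and `q n = 1` otherwise is
`Ω`-divergent: no odd positive integer has it as its E-sequence. More generally, for every odd integer `d`
(positive or negative) there are no integers `y 0, y 1, ...` with `3 y_{n-1} + d = 2^(q n) y_n` for all
`n ≥ 1`; so no rational number with odd denominator has this E-sequence. -/
theorem result :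
    (¬ ∃ x : ℕ, Odd x ∧ ∀ n : ℕ, 1 ≤ n → eSequence x n = q n) ∧
    (∀ d : ℤ, Odd d → ¬ ∃ y : ℕ → ℤ, ∀ n : ℕ, 1 ≤ n → 3 * y (n - 1) + d = 2 ^ q n * y n) := by
  refine ⟨?_, no_trajectory⟩
  rintro ⟨x, _, hx⟩
  apply no_trajectory 1 odd_one
  refine ⟨fun n => (S^[n] x : ℕ), fun n hn => ?_⟩
  have h1 := hx n hn
  unfold eSequence at h1
  obtain ⟨k, rfl⟩ := Nat.exists_eq_add_of_le' hn
  rw [Nat.add_sub_cancel] at *
  have h2 : S^[k + 1] x * 2 ^ padicValNat 2 (3 * S^[k] x + 1) = 3 * S^[k] x + 1 := by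
    rw [Function.iterate_succ_apply']
    unfold S
    exact Nat.div_mul_cancel pow_padicValNat_dvd
  rw [h1] at h2
  have h3 : ((S^[k + 1] x : ℕ) : ℤ) * 2 ^ q (k + 1) = 3 * (S^[k] x : ℕ) + 1 := by exact_mod_cast h2
  rw [← h3]; ring

end Pool.Agent.Results.MP_106823_nt.SquareESequence
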